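import Pool.Agent.P.MP_df4ecf_al.Q2.Mag

/-!
A cubic relation in the graded Lie ring of the IA-automorphism group of any rank at least three
that does not follow from the quadratic relations. It is detected modulo two.
-/

namespace Pool.Agent.P.MP_df4ecf_al.Q2

open scoped commutatorElement

attribute [local instance 100] LieRing.ofAssociativeRing

variable {n : ℕ}

/-- The field with two elements. -/
abbrev F := ZMod 2

/-- Symmetric matrices over the field with two elements. -/
def Sy (n : ℕ) : Submodule F (Fin n → Fin n → F) where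
  carrier := {u | ∀ p q, u p q = u q p}
  add_mem' := fun {a b} ha hb p q => by simp only [Pi.add_apply, ha p q, hb p q]
  zero_mem' := fun _ _ => rfl
  smul_mem' := fun c {a} ha p q => by simp only [Pi.smul_apply, ha p q]

/-- The module on which the degree one part acts. -/
abbrev M (n : ℕ) := (Fin n → F) × Sy n × (Fin n → F) × F

/-- The action of a family of symmetric matrices. -/
def act (j k : Fin n) (d : Fin n → Sy n) : Module.End F (M n) where
  toFun m := (0, ∑ l, m.1 l • d l,
    fun p => ∑ q, m.2.1.1 p q * (d q).1 j k + ∑ q, m.2.1.1 q k * (d q).1 p j,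
    ∑ p, (d p).1 j k * m.2.2.1 p)
  map_add' a b := by
    refine Prod.ext (by simp) (Prod.ext ?_ (Prod.ext ?_ ?_))
    · simp [add_smul, Finset.sum_add_distrib]
    · funext p
      simp only [Prod.snd_add, Prod.fst_add, Submodule.coe_add, Pi.add_apply, add_mul,
        Finset.sum_add_distrib]
      ring
    · simp [mul_add, Finset.sum_add_distrib]
  map_smul' c a := by
    refine Prod.ext (by simp) (Prod.ext ?_ (Prod.ext ?_ ?_))
    · simp [Finset.smul_sum, mul_smul]
    · funext p
      simp [Finset.mul_sum, mul_add, mul_assoc]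
    · simp [Finset.mul_sum, mul_left_comm]

/-- The action of a degree two element. -/
def act2 (k : Fin n) (j : Fin n) (E : Fin n → Fin n → F) : Module.End F (M n) where
  toFun m := (0, 0, fun p => ∑ l, m.1 l * E l p, ∑ y, m.2.1.1 y k * E y j)
  map_add' a b := by
    refine Prod.ext (by simp) (Prod.ext (by simp) (Prod.ext ?_ ?_))
    · funext p
      simp [add_mul, Finset.sum_add_distrib]
    · simp [add_mul, Finset.sum_add_distrib]
  map_smul' c a := by
    refine Prod.ext (by simp) (Prod.ext (by simp) (Prod.ext ?_ ?_))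
    · funext p
      simp [Finset.mul_sum, mul_assoc]
    · simp [Finset.mul_sum, mul_assoc]

theorem act_apply (j k : Fin n) (d : Fin n → Sy n) (m : M n) : act j k d m =
    (0, ∑ l, m.1 l • d l,
    fun p => ∑ q, m.2.1.1 p q * (d q).1 j k + ∑ q, m.2.1.1 q k * (d q).1 p j,
    ∑ p, (d p).1 j k * m.2.2.1 p) := rfl

theorem act2_apply (k j : Fin n) (E : Fin n → Fin n → F) (m : M n) : act2 k j E m =
    (0, 0, fun p => ∑ l, m.1 l * E l p, ∑ y, m.2.1.1 y k * E y j) := rfl

theorem act_add (j k : Fin n) (d e : Fin n → Sy n) :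
    act j k (d + e) = act j k d + act j k e := by
  refine LinearMap.ext fun m => ?_
  rw [LinearMap.add_apply, act_apply, act_apply, act_apply]
  refine Prod.ext (by simp) (Prod.ext ?_ (Prod.ext ?_ ?_))
  · simp [Finset.sum_add_distrib]
  · funext p
    simp only [Prod.snd_add, Prod.fst_add, Submodule.coe_add, Pi.add_apply, mul_add,
      Finset.sum_add_distrib]
    ring
  · simp [add_mul, Finset.sum_add_distrib]

theorem act2_add (k j : Fin n) (E E' : Fin n → Fin n → F) :
    act2 k j (E + E') = act2 k j E + act2 k j E' := by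
  refine LinearMap.ext fun m => ?_
  rw [LinearMap.add_apply, act2_apply, act2_apply, act2_apply]
  refine Prod.ext (by simp) (Prod.ext (by simp) (Prod.ext ?_ ?_))
  · funext p
    simp [mul_add, Finset.sum_add_distrib]
  · simp [mul_add, Finset.sum_add_distrib]

theorem act2_zero (k j : Fin n) : act2 k j 0 = 0 := by
  refine LinearMap.ext fun m => ?_
  rw [act2_apply]
  refine Prod.ext rfl (Prod.ext rfl (Prod.ext ?_ ?_))
  · funext p
    simp
  · simp

/-- The composition of two derivations on the coefficients that are used. -/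
def bet (j k : Fin n) (a b : Fin n → Sy n) (l p : Fin n) : F :=
  ∑ q, (b l).1 p q * (a q).1 j k + ∑ q, (b l).1 q k * (a q).1 p j

theorem act_mul (j k : Fin n) (a b : Fin n → Sy n) (ha : ∀ q, (a q).1 j j = 0) (m : M n) :
    act j k a (act j k b m) = act2 k j (bet j k a b) m +
      (0, 0, 0, ∑ p, ∑ q, (a p).1 j k * m.2.1.1 p q * (b q).1 j k) := by
  rw [act_apply, act_apply, act2_apply]
  refine Prod.ext (by simp) (Prod.ext (by simp) (Prod.ext ?_ ?_))
  · funext p
    simp only [Prod.snd_add, Prod.fst_add, Pi.add_apply, Pi.zero_apply, add_zero, bet,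
      Submodule.coe_sum, Submodule.coe_smul, Finset.sum_apply, Pi.smul_apply, smul_eq_mul,
      mul_add, Finset.sum_add_distrib, Finset.sum_mul, Finset.mul_sum, mul_assoc]
    rw [Finset.sum_comm]
    congr 1
    exact Finset.sum_comm
  · simp only [Prod.snd_add, bet, ha, mul_zero, Finset.sum_const_zero, add_zero, mul_add,
      Finset.sum_add_distrib, Finset.mul_sum]
    rw [add_comm]
    congr 1
    · rw [Finset.sum_comm]
      refine Finset.sum_congr rfl fun y _ => Finset.sum_congr rfl fun q _ => ?_
      rw [(b y).2 q j]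
      ring
    · exact Finset.sum_congr rfl fun y _ => Finset.sum_congr rfl fun q _ => by ring

theorem act_lie (j k : Fin n) (a b : Fin n → Sy n) (ha : ∀ q, (a q).1 j j = 0)
    (hb : ∀ q, (b q).1 j j = 0) :
    act2 k j (bet j k a b) - act2 k j (bet j k b a) =
      act j k a * act j k b - act j k b * act j k a := by
  refine LinearMap.ext fun m => ?_
  rw [LinearMap.sub_apply, LinearMap.sub_apply, Module.End.mul_apply,
    Module.End.mul_apply, act_mul j k a b ha, act_mul j k b a hb]
  have : ∑ p, ∑ q, (a p).1 j k * m.2.1.1 p q * (b q).1 j k =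
      ∑ p, ∑ q, (b p).1 j k * m.2.1.1 p q * (a q).1 j k := by
    rw [Finset.sum_comm]
    refine Finset.sum_congr rfl fun y _ => Finset.sum_congr rfl fun q _ => ?_
    rw [m.2.1.2 q y]
    ring
  rw [this]
  abel

/-- The degree two coefficients modulo two. -/
def s2 (φ : IA n) (l : Fin n) : Sy n :=
  ⟨fun p q => (c2 φ l p q : F), fun p q => by
    have h : c2 φ l p q = - c2 φ l q p := by linarith [c2_anti φ l p q]
    change ((c2 φ l p q : ℤ) : F) = ((c2 φ l q p : ℤ) : F)
    rw [h, Int.cast_neg, ZMod.neg_eq_self_mod_two]⟩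

theorem s2_val (φ : IA n) (l p q : Fin n) : (s2 φ l).1 p q = (c2 φ l p q : F) := rfl

theorem s2_mul (φ ψ : IA n) : s2 (φ * ψ) = s2 φ + s2 ψ := by
  funext l
  apply Subtype.ext
  funext p q
  simp [s2_val, c2_mul]

theorem f_mul (j k : Fin n) (φ ψ : IA n) :
    act j k (s2 (φ * ψ)) = act j k (s2 φ) + act j k (s2 ψ) := by
  rw [s2_mul, act_add]

theorem quad_IA (j k : Fin n) : quadIdeal (inclOne (IA n)) ≤
    (FreeLieRing.extend (Q1.lamOf (fun φ => act j k (s2 φ)) (f_mul j k))).ker := by
  refine Q1.quad_ker _ _ (fun φ => act2 k j fun l p => (c3 φ l p j k : F))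
    (fun φ ψ => act2 k j (bet j k (s2 φ) (s2 ψ))) ?_ ?_ ?_
  · intro φ ψ
    rw [← act2_add, ← act2_add]
    congr 1
    funext l p
    simp [c3_mul, bet, s2_val]
  · intro φ ψ
    exact act_lie j k _ _ (fun q => by simp [s2_val, c2_diag]) (fun q => by simp [s2_val, c2_diag])
  · intro φ hφ ψ
    have h0 : ∀ l p q, c2 φ l p q = 0 := fun l p q =>
      add_vanish (f := fun φ => c2 φ l p q) (fun a b => c2_mul a b l p q) φ hφ
    have : bet j k (s2 φ) (s2 ψ) = 0 := by
      funext l p
      simp [bet, s2_val, h0]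
    rw [this, act2_zero]

/-- The endomorphism that sends generator `i` to `u * x * v` and fixes the others. -/
def endo (i : Fin n) (u v : FreeGroup (Fin n)) : FreeGroup (Fin n) →* FreeGroup (Fin n) :=
  FreeGroup.lift fun l => if l = i then u * FreeGroup.of i * v else FreeGroup.of l

theorem endo_of (i l : Fin n) (u v : FreeGroup (Fin n)) :
    endo i u v (FreeGroup.of l) = if l = i then u * FreeGroup.of i * v else FreeGroup.of l := by
  simp [endo]

/-- The automorphism given by `endo i u v` when `u` and `v` do not involve generator `i`. -/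
def aut (i : Fin n) (u v : FreeGroup (Fin n)) (hu : ∀ s t, endo i s t u = u)
    (hv : ∀ s t, endo i s t v = v) (h : Abelianization.of (u * v) = 1) : IA n :=
  ⟨MonoidHom.toMulEquiv (endo i u v) (endo i u⁻¹ v⁻¹)
    (by ext l; by_cases hl : l = i <;> simp [endo_of, hl, hu, hv, mul_assoc])
    (by ext l; by_cases hl : l = i <;> simp [endo_of, hl, hu, hv, mul_assoc]), by
    have : Abelianization.of.comp (endo i u v) = Abelianization.of := by
      ext l
      by_cases hl : l = i
      · simp only [map_mul] at h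
        simp [endo_of, hl, mul_right_comm, h]
      · simp [endo_of, hl]
    exact fun x => DFunLike.congr_fun this x⟩

theorem aut_apply (i : Fin n) (u v hu hv h) (x : FreeGroup (Fin n)) :
    (aut i u v hu hv h : MulAut (FreeGroup (Fin n))) x = endo i u v x := rfl

theorem aut_symm_apply (i : Fin n) (u v hu hv h) (x : FreeGroup (Fin n)) :
    MulEquiv.symm (aut i u v hu hv h : MulAut (FreeGroup (Fin n))) x = endo i u⁻¹ v⁻¹ x := rfl

section Three

variable (i j k : Fin n) (hj : j ≠ i) (hk : k ≠ i)

/-- Conjugation of generator `i` by generator `j`. -/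
def con (i j : Fin n) (hj : j ≠ i) : IA n :=
  aut i (FreeGroup.of j) (FreeGroup.of j)⁻¹ (by simp [endo_of, hj]) (by simp [endo_of, hj])
    (by simp)

/-- Left multiplication of generator `i` by a commutator of generators `j` and `k`. -/
def lef : IA n :=
  aut i ((FreeGroup.of j)⁻¹ * (FreeGroup.of k)⁻¹ * FreeGroup.of j * FreeGroup.of k) 1
    (by simp [endo_of, hj, hk]) (by simp) (by simp)

theorem rel : ⁅lef i j k hj hk, ⁅con i j hj, con i k hk⁆⁆ = 1 := by
  apply Subtype.ext
  apply MulEquiv.toMonoidHom_injective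
  apply FreeGroup.ext_hom
  intro l
  by_cases hl : l = i <;>
    simp [commutatorElement_def, lef, con, aut_apply, aut_symm_apply, endo_of, hl, hj, hk,
      mul_assoc]

end Three

theorem main_all (hn : 3 ≤ n) :
    (FreeLieRing.extend (inclOne (IA n))).ker ≠ quadIdeal (inclOne (IA n)) := by
  intro hQ
  obtain ⟨i, hi⟩ : ∃ i : Fin n, i.1 = 0 := ⟨⟨0, by omega⟩, rfl⟩
  obtain ⟨j, hj⟩ : ∃ j : Fin n, j.1 = 1 := ⟨⟨1, by omega⟩, rfl⟩
  obtain ⟨k, hk⟩ : ∃ k : Fin n, k.1 = 2 := ⟨⟨2, by omega⟩, rfl⟩
  have hji : j ≠ i := fun h => by rw [h] at hj; omega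
  have hki : k ≠ i := fun h => by rw [h] at hk; omega
  have hjk : j ≠ k := fun h => by rw [h] at hj; omega
  have hker : natMap (IA n) ⁅FreeLieRing.gen (cl (lef i j k hji hki)),
      ⁅FreeLieRing.gen (cl (con i j hji)), FreeLieRing.gen (cl (con i k hki))⁆⁆ = 0 := by
    rw [LieHom.map_lie, LieHom.map_lie, natMap_gen, natMap_gen, natMap_gen, incl_cl, incl_cl,
      incl_cl, lie_gcls, lie_gcls]
    exact cls_eq_zero _ _ (rel i j k hji hki)
  have h1 := LieHom.mem_ker.1 (quad_IA j k (hQ ▸ LieHom.mem_ker.2 hker))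
  rw [LieHom.map_lie, LieHom.map_lie, lift_gen, lift_gen, lift_gen, Q1.lamOf_cl, Q1.lamOf_cl,
    Q1.lamOf_cl] at h1
  have h2 := congrArg (fun T : Module.End F (M n) => (T (Pi.single i 1, 0, 0, 0)).2.2.2) h1
  have eL : ∀ l p q, c2 (lef i j k hji hki) l p q = if l = i then
      (if p = j then 1 else 0) * (if q = k then 1 else 0) -
        (if p = k then 1 else 0) * (if q = j then 1 else 0) else 0 := by
    intro l p q
    unfold c2 lef
    rw [aut_apply, endo_of]
    by_cases hl : l = i
    · simp only [hl, if_true, map_mul, map_inv, mag_of, Tn.mul_a1, Tn.mul_a2, Tn.inv_a1,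
        Tn.inv_a2, map_one, Tn.one_a1, Tn.one_a2]
      ring
    · simp [hl, mag_of]
  have eC : ∀ (s : Fin n) (hs : s ≠ i) l p q, c2 (con i s hs) l p q = if l = i then
      (if p = s then 1 else 0) * (if q = i then 1 else 0) -
        (if p = i then 1 else 0) * (if q = s then 1 else 0) else 0 := by
    intro s hs l p q
    unfold c2 con
    rw [aut_apply, endo_of]
    by_cases hl : l = i
    · simp only [hl, if_true, map_mul, map_inv, mag_of, Tn.mul_a1, Tn.mul_a2, Tn.inv_a1,
        Tn.inv_a2]
      ring
    · simp [hl, mag_of]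
  simp only [Ring.lie_def, mul_sub, sub_mul, LinearMap.sub_apply, Module.End.mul_apply,
    Prod.snd_sub, act_apply] at h2
  simp [s2_val, eL, eC, hji, hki, hjk, hji.symm, hjk.symm, Pi.single_apply] at h2

end Pool.Agent.P.MP_df4ecf_al.Q2
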