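import Pool.Agent.P.MP_df4ecf_al.Q1.John

/-!
The Magnus expansion of a free group of finite rank, truncated above degree three, and the
coefficients of degree two and three of an IA-automorphism.
-/

namespace Pool.Agent.P.MP_df4ecf_al.Q2

/-- Noncommutative power series in `n` variables with constant term one, modulo degree four. -/
@[ext] structure Tn (n : ℕ) where
  a1 : Fin n → ℤ
  a2 : Fin n → Fin n → ℤ
  a3 : Fin n → Fin n → Fin n → ℤ

variable {n : ℕ}

instance : Mul (Tn n) where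
  mul a b := ⟨fun i => a.a1 i + b.a1 i, fun i j => a.a2 i j + b.a2 i j + a.a1 i * b.a1 j,
    fun i j k => a.a3 i j k + b.a3 i j k + a.a1 i * b.a2 j k + a.a2 i j * b.a1 k⟩

instance : One (Tn n) where
  one := ⟨fun _ => 0, fun _ _ => 0, fun _ _ _ => 0⟩

instance : Inv (Tn n) where
  inv a := ⟨fun i => - a.a1 i, fun i j => - a.a2 i j + a.a1 i * a.a1 j,
    fun i j k => - a.a3 i j k + a.a1 i * a.a2 j k + a.a2 i j * a.a1 k - a.a1 i * a.a1 j * a.a1 k⟩

namespace Tn

@[simp] theorem mul_a1 (a b : Tn n) (i) : (a * b).a1 i = a.a1 i + b.a1 i := rfl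
@[simp] theorem mul_a2 (a b : Tn n) (i j) :
    (a * b).a2 i j = a.a2 i j + b.a2 i j + a.a1 i * b.a1 j := rfl
@[simp] theorem mul_a3 (a b : Tn n) (i j k) :
    (a * b).a3 i j k = a.a3 i j k + b.a3 i j k + a.a1 i * b.a2 j k + a.a2 i j * b.a1 k := rfl
@[simp] theorem one_a1 (i) : (1 : Tn n).a1 i = 0 := rfl
@[simp] theorem one_a2 (i j) : (1 : Tn n).a2 i j = 0 := rfl
@[simp] theorem one_a3 (i j k) : (1 : Tn n).a3 i j k = 0 := rfl
@[simp] theorem inv_a1 (a : Tn n) (i) : (a⁻¹).a1 i = - a.a1 i := rfl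
@[simp] theorem inv_a2 (a : Tn n) (i j) : (a⁻¹).a2 i j = - a.a2 i j + a.a1 i * a.a1 j := rfl
@[simp] theorem inv_a3 (a : Tn n) (i j k) : (a⁻¹).a3 i j k =
    - a.a3 i j k + a.a1 i * a.a2 j k + a.a2 i j * a.a1 k - a.a1 i * a.a1 j * a.a1 k := rfl

instance : Group (Tn n) := Group.ofLeftAxioms
  (by intro a b c; ext <;> simp <;> ring)
  (by intro a; ext <;> simp)
  (by intro a; ext <;> simp; ring)

/-- Substitution of `X l + D2 l + D3 l` for the variable `X l`. -/
def subst (D2 : Fin n → Fin n → Fin n → ℤ) (D3 : Fin n → Fin n → Fin n → Fin n → ℤ) :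
    Tn n →* Tn n :=
  MonoidHom.mk' (fun a => ⟨a.a1, fun i j => a.a2 i j + ∑ l, a.a1 l * D2 l i j,
    fun i j k => a.a3 i j k + ∑ l, a.a1 l * D3 l i j k + ∑ l, a.a2 i l * D2 l j k +
      ∑ l, a.a2 l k * D2 l i j⟩)
    (by
      intro a b
      ext i j k
      · simp
      · simp only [mul_a1, mul_a2, add_mul, Finset.sum_add_distrib]
        ring
      · have e1 : ∑ l, a.a1 i * b.a1 l * D2 l j k = a.a1 i * ∑ l, b.a1 l * D2 l j k := by
          rw [Finset.mul_sum]
          exact Finset.sum_congr rfl fun l _ => by ring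
        have e2 : ∑ l, a.a1 l * b.a1 k * D2 l i j = (∑ l, a.a1 l * D2 l i j) * b.a1 k := by
          rw [Finset.sum_mul]
          exact Finset.sum_congr rfl fun l _ => by ring
        simp only [mul_a1, mul_a2, mul_a3, add_mul, Finset.sum_add_distrib, e1, e2]
        ring)

/-- The linear part. -/
def lin : Tn n →* Multiplicative (Fin n → ℤ) :=
  MonoidHom.mk' (fun a => Multiplicative.ofAdd a.a1) (by intro a b; rfl)

end Tn

/-- The truncated Magnus expansion. -/
def mag : FreeGroup (Fin n) →* Tn n :=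
  FreeGroup.lift fun l => ⟨fun i => if i = l then 1 else 0, fun _ _ => 0, fun _ _ _ => 0⟩

theorem mag_of (l : Fin n) : mag (FreeGroup.of l) =
    ⟨fun i => if i = l then 1 else 0, fun _ _ => 0, fun _ _ _ => 0⟩ := by
  simp [mag]

theorem mag_shuffle (g : FreeGroup (Fin n)) (i j : Fin n) :
    (mag g).a2 i j + (mag g).a2 j i + (if i = j then (mag g).a1 i else 0) =
      (mag g).a1 i * (mag g).a1 j := by
  induction g using FreeGroup.induction_on with
  | C1 => simp
  | of l =>
    rw [mag_of]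
    by_cases h : i = j
    · subst h
      by_cases h' : i = l <;> simp [h']
    · by_cases h' : i = l
      · subst h'
        simp [h, Ne.symm h]
      · simp [h, h']
  | inv_of l _ =>
    rw [map_inv, mag_of]
    by_cases h : i = j
    · subst h
      by_cases h' : i = l <;> simp [h']
    · by_cases h' : i = l
      · subst h'
        simp [h, Ne.symm h]
      · simp [h, h']
  | mul a b ha hb =>
    rw [map_mul]
    by_cases h : i = j
    · simp only [h, if_true, Tn.mul_a1, Tn.mul_a2] at ha hb ⊢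
      linarith
    · simp only [h, if_false, Tn.mul_a1, Tn.mul_a2] at ha hb ⊢
      linarith

theorem mag_a1 (φ : IA n) (x : FreeGroup (Fin n)) :
    (mag ((φ : MulAut (FreeGroup (Fin n))) x)).a1 = (mag x).a1 := by
  have h := congrArg (Abelianization.lift (Tn.lin.comp mag)) (φ.2 x)
  simp only [Abelianization.lift_apply_of, MonoidHom.comp_apply] at h
  exact h

/-- Degree two Magnus coefficients of an IA-automorphism. -/
def c2 (φ : IA n) (l i j : Fin n) : ℤ :=
  (mag ((φ : MulAut (FreeGroup (Fin n))) (FreeGroup.of l))).a2 i j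

/-- Degree three Magnus coefficients of an IA-automorphism. -/
def c3 (φ : IA n) (l i j k : Fin n) : ℤ :=
  (mag ((φ : MulAut (FreeGroup (Fin n))) (FreeGroup.of l))).a3 i j k

theorem mag_IA (φ : IA n) (x : FreeGroup (Fin n)) :
    mag ((φ : MulAut (FreeGroup (Fin n))) x) = Tn.subst (c2 φ) (c3 φ) (mag x) := by
  have : mag.comp (φ : MulAut (FreeGroup (Fin n))).toMonoidHom =
      (Tn.subst (c2 φ) (c3 φ)).comp mag := by
    apply FreeGroup.ext_hom
    intro l
    have h1 := mag_a1 φ (FreeGroup.of l)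
    ext
    · simp [h1, Tn.subst]
    · simp [Tn.subst, mag_of, c2]
    · simp [Tn.subst, mag_of, c3]
  exact DFunLike.congr_fun this x

theorem c2_anti (φ : IA n) (l i j : Fin n) : c2 φ l i j + c2 φ l j i = 0 := by
  have h := mag_shuffle ((φ : MulAut (FreeGroup (Fin n))) (FreeGroup.of l)) i j
  rw [mag_a1, mag_of] at h
  unfold c2
  by_cases hij : i = j
  · subst hij
    by_cases h' : i = l <;> simpa [h'] using h
  · by_cases h' : i = l
    · subst h'
      simpa [hij, Ne.symm hij] using h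
    · simpa [hij, h'] using h

theorem c2_diag (φ : IA n) (l j : Fin n) : c2 φ l j j = 0 := by
  have := c2_anti φ l j j
  omega

theorem c2_mul (φ ψ : IA n) (l i j : Fin n) : c2 (φ * ψ) l i j = c2 φ l i j + c2 ψ l i j := by
  have h := mag_IA φ ((ψ : MulAut (FreeGroup (Fin n))) (FreeGroup.of l))
  have h1 := mag_a1 ψ (FreeGroup.of l)
  have : c2 (φ * ψ) l i j = (mag ((φ : MulAut (FreeGroup (Fin n)))
      ((ψ : MulAut (FreeGroup (Fin n))) (FreeGroup.of l)))).a2 i j := rfl
  rw [this, h]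
  simp [Tn.subst, h1, mag_of, c2, add_comm]

theorem c3_mul (φ ψ : IA n) (l i j k : Fin n) : c3 (φ * ψ) l i j k = c3 φ l i j k + c3 ψ l i j k +
    (∑ q, c2 ψ l i q * c2 φ q j k + ∑ q, c2 ψ l q k * c2 φ q i j) := by
  have h := mag_IA φ ((ψ : MulAut (FreeGroup (Fin n))) (FreeGroup.of l))
  have h1 := mag_a1 ψ (FreeGroup.of l)
  have : c3 (φ * ψ) l i j k = (mag ((φ : MulAut (FreeGroup (Fin n)))
      ((ψ : MulAut (FreeGroup (Fin n))) (FreeGroup.of l)))).a3 i j k := rfl
  rw [this, h]
  simp [Tn.subst, h1, mag_of]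
  simp only [c2, c3]
  ring

end Pool.Agent.P.MP_df4ecf_al.Q2
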